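import Pool.Agent.Lib.helper21.NS

set_option autoImplicit false

open Cardinal Set Pool.Agent.Lib.helper21.NS

namespace Pool.Agent.H.MP_40e9ab_lc

theorem exists_X : ∃ (X : Type) (_ : LinearOrder X) (_ : WellFoundedLT X),
    Reg X ∧ #X ≤ 𝔠 ∧ 𝔠 < 2 ^ #X := by
  have h0 : ℵ₀ < (𝔠 : Cardinal.{0}).ord.cof :=
    lt_cof_ord_power le_rfl (by norm_num : (1 : Cardinal.{0}) < 2)
  have hr : (𝔠 : Cardinal.{0}).ord.cof.IsRegular :=
    isRegular_cof (isSuccLimit_ord aleph0_le_continuum)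
  refine ⟨(𝔠 : Cardinal.{0}).ord.cof.ord.ToType, inferInstance, inferInstance,
    reg_of_isRegular hr h0, ?_, ?_⟩
  · rw [mk_ord_toType]; exact Ordinal.cof_ord_le _
  · rw [mk_ord_toType]
    have := lt_power_cof_ord (c := 𝔠) aleph0_le_continuum
    rwa [← two_power_aleph0, ← power_mul, two_power_aleph0, mul_eq_right h0.le h0.le aleph0_ne_zero]
      at this

theorem card_borel : #{B : Set ℝ | MeasurableSet B} ≤ 𝔠 := by
  have := MeasurableSpace.cardinal_measurableSet_le_continuum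
    (s := ⋃ a : ℚ, {Iio (a : ℝ)}) (by
      rw [iUnion_singleton_eq_range]
      exact (mk_range_le.trans (by simp [aleph0_le_continuum])))
  rwa [← Real.borel_eq_generateFrom_Iio_rat] at this

theorem main : ∃ N : Set (Set ℝ),
      (∀ A ∈ N, A ⊆ Set.Icc (0:ℝ) 1) ∧
      (∀ J : Set ℝ, J.OrdConnected → J ⊆ Set.Icc (0:ℝ) 1 → J ∈ N) ∧
      (∀ A ∈ N, Set.Icc (0:ℝ) 1 \ A ∈ N) ∧
      (∀ f : ℕ → Set ℝ, (∀ n, f n ∈ N) → (⋃ n, f n) ∈ N) ∧
      (∀ P : Set (Set ℝ),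
          (∀ p ∈ P, ∃ x ∈ p, ∃ y ∈ p, x ≠ y) →
          P.PairwiseDisjoint id →
          ⋃₀ P = Set.Icc (0:ℝ) 1 →
          ∃ S ∈ N, ∀ p ∈ P, ∃! x, x ∈ S ∧ x ∈ p) ∧
      ¬ ∀ A : Set ℝ, A ⊆ Set.Icc (0:ℝ) 1 → A ∈ N := by
  classical
  obtain ⟨X, _, _, R, h1, h2⟩ := exists_X
  obtain ⟨e'⟩ : Nonempty (X ↪ Icc (0:ℝ) 1) := by
    rw [← le_def, mk_Icc_real zero_lt_one]; exact h1
  let e : X → ℝ := fun x => e' x
  have he : Function.Injective e := fun x y h => e'.injective (Subtype.ext h)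
  have heI : ∀ x, e x ∈ Icc (0:ℝ) 1 := fun x => (e' x).2
  refine ⟨{A | A ⊆ Icc 0 1 ∧ ∃ B, MeasurableSet B ∧ J {x | ¬ (e x ∈ A ↔ e x ∈ B)}},
    fun A hA => hA.1, fun K hK hK' => ⟨hK', K, hK.measurableSet, by simpa using J_empty R⟩,
    ?_, ?_, ?_, ?_⟩
  · rintro A ⟨-, B, hB, hJ⟩
    refine ⟨sdiff_subset, Bᶜ, hB.compl, hJ.mono (fun x hx => ?_)⟩
    have := heI x
    simp only [mem_ofPred_eq, mem_sdiff, mem_compl_iff] at hx ⊢
    tauto
  · intro f hf
    choose B hB hJ using fun n => (hf n).2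
    refine ⟨iUnion_subset (fun n => (hf n).1), ⋃ n, B n, MeasurableSet.iUnion hB,
      (J_iUnion R _ hJ).mono (fun x hx => ?_)⟩
    simp only [mem_ofPred_eq, mem_iUnion] at hx ⊢
    by_contra hc
    push Not at hc
    exact hx (exists_congr hc)
  · intro P hP hd hU
    have key : ∀ p : P, ∃ s ∈ p.1, ∀ z, e z = s → ∃ m, m < z ∧ e m ∈ p.1 := by
      rintro ⟨p, hp⟩
      obtain ⟨x, hx, y, hy, hxy⟩ := hP p hp
      by_cases h1 : x ∈ range e
      · by_cases h2 : y ∈ range e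
        · obtain ⟨a, rfl⟩ := h1
          obtain ⟨b, rfl⟩ := h2
          rcases lt_or_gt_of_ne (fun h => hxy (congrArg e h)) with h | h
          · exact ⟨_, hy, fun z hz => ⟨a, he hz ▸ h, hx⟩⟩
          · exact ⟨_, hx, fun z hz => ⟨b, he hz ▸ h, hy⟩⟩
        · exact ⟨y, hy, fun z hz => absurd ⟨z, hz⟩ h2⟩
      · exact ⟨x, hx, fun z hz => absurd ⟨z, hz⟩ h1⟩
    choose s hs hs' using key
    have uniq : ∀ (p q : P) x, x ∈ p.1 → x ∈ q.1 → p = q := by
      intro p q x h1 h2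
      by_contra hne
      exact disjoint_left.1 (hd p.2 q.2 (fun h => hne (Subtype.ext h))) h1 h2
    refine ⟨range s, ⟨?_, ∅, MeasurableSet.empty, ?_⟩, ?_⟩
    · rintro _ ⟨p, rfl⟩
      rw [← hU]; exact ⟨p.1, p.2, hs p⟩
    · have : ∀ z : X, ∃ m, e z ∈ range s → m < z ∧ ∃ p, e z = s p ∧ e m ∈ p.1 := by
        intro z
        by_cases hz : e z ∈ range s
        · obtain ⟨p, hp⟩ := hz
          obtain ⟨m, hm, hm'⟩ := hs' p z hp.symm
          exact ⟨m, fun _ => ⟨hm, p, hp.symm, hm'⟩⟩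
        · exact ⟨z, fun h => absurd h hz⟩
      choose f hf using this
      refine ⟨f, fun x hx _ => (hf x (by simpa using hx)).1, fun y => ?_⟩
      have := R.nonempty
      apply Set.Finite.bddAbove (α := X)
      apply Set.Subsingleton.finite
      rintro x ⟨hx, hx'⟩ z ⟨hz, hz'⟩
      obtain ⟨p, h1, h2⟩ := (hf x (by simpa using hx)).2
      obtain ⟨q, h3, h4⟩ := (hf z (by simpa using hz)).2
      rw [hx'] at h2
      rw [hz'] at h4
      apply he
      rw [h1, h3, uniq p q _ h2 h4]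
    · intro p hp
      refine ⟨s ⟨p, hp⟩, ⟨⟨_, rfl⟩, hs ⟨p, hp⟩⟩, ?_⟩
      rintro _ ⟨⟨q, rfl⟩, hq⟩
      rw [uniq q ⟨p, hp⟩ _ (hs q) hq]
  · intro hall
    obtain ⟨g, hg⟩ := split R
    set T := {y | ¬ J {x | g x = y}}
    have hB : ∀ A : Set T, ∃ B : {B : Set ℝ | MeasurableSet B},
        J {x | ¬ (g x ∈ Subtype.val '' A ↔ e x ∈ B.1)} := by
      intro A
      obtain ⟨-, B, hB, hJ⟩ := hall (e '' {x | g x ∈ Subtype.val '' A}) (by
        rintro _ ⟨x, -, rfl⟩; exact heI x)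
      refine ⟨⟨B, hB⟩, hJ.mono (fun x hx => ?_)⟩
      simp only [mem_ofPred_eq, he.mem_set_image] at hx ⊢
      exact hx
    choose B hB using hB
    have hinj : Function.Injective B := by
      intro A A' h
      ext t
      by_contra hc
      refine t.2 ((J_union R (hB A) (hB A')).mono (fun x hx => ?_))
      simp only [mem_ofPred_eq, mem_union] at hx ⊢
      rw [hx, h, Subtype.val_injective.mem_set_image, Subtype.val_injective.mem_set_image]
      tauto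
    have := mk_le_of_injective hinj
    rw [mk_set] at this
    exact absurd ((power_le_power_left two_ne_zero hg).trans (this.trans card_borel)) (not_le.2 h2)

end Pool.Agent.H.MP_40e9ab_lc
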